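import Pool.Agent.N977.P.Stm2
import Pool.Agent.N977.Q.Hel

/-!
Translations in the third variable.
-/

open MeasureTheory Set Filter Topology
open scoped ContDiff ComplexConjugate

namespace Pool.Agent.N300.NSP

open H459R3.NS Pool.Agent.N977.Q Pool.Agent.N977.S Pool.Agent.N977.P
open Pool.Agent.N977.K (SolK cmp)

theorem ph_single {k : K3} (hk : k 2 = 0) (x : V) (a : ℝ) : ph k (x + Pi.single 2 a) = ph k x := by
  unfold ph
  rw [Fin.sum_univ_three, Fin.sum_univ_three]
  have h0 : (Pi.single 2 a : V) 0 = 0 := by simp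
  have h1 : (Pi.single 2 a : V) 1 = 0 := by simp
  rw [Pi.add_apply, Pi.add_apply, Pi.add_apply, h0, h1, hk]
  simp

theorem ee_single {k : K3} (hk : k 2 = 0) (a : ℝ) : ee k (Pi.single 2 a : V) = 1 := by
  have h := ph_single hk 0 a
  rw [zero_add] at h
  unfold ee
  rw [h]
  simp [ph]

theorem Xf_single {g : K3 → ℝ} (hg : ∀ k, g k ≠ 0 → k 2 = 0) (x : V) (a : ℝ) :
    Xf g (x + Pi.single 2 a) = Xf g x := by
  unfold Xf
  refine tsum_congr fun k => ?_
  by_cases h : g k = 0
  · rw [h, zero_mul, zero_mul]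
  · rw [ph_single (hg k h)]

theorem am_single {g : K3 → ℝ} (hg : ∀ k, g k ≠ 0 → k 2 = 0) {u : V → V} (hu : SPV u) (a : ℝ) :
    am g (fun x => u (x + Pi.single 2 a)) = am g u := by
  unfold am
  refine tsum_congr fun k => ?_
  by_cases h : g k = 0
  · rw [h, zero_mul, zero_mul]
  · have h1 := fr_shift (spv_sp hu 2) (Pi.single 2 a) k
    rw [ee_single (hg k h), one_mul] at h1
    rw [h1]

theorem sh : S_SH := by
  intro J G α μ hP hG u v hu hv
  refine ⟨fun a x => ?_, fun a => ?_⟩
  · funext i
    unfold KP kp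
    split_ifs with hi
    · refine tsum_congr fun n => ?_
      rw [Xf_single (hP.hor 0 n), Xf_single (hP.hor 1 n)]
    · rfl
  · funext x i
    unfold KP kp
    split_ifs with hi
    · refine tsum_congr fun n => ?_
      have e : ∀ e n, am (G e n) (fun x => u (x + Pi.single 2 a)) = am (G e n) u :=
        fun e n => am_single (hP.hor e n) hu a
      have e' : ∀ e n, am (G e n) (fun x => v (x + Pi.single 2 a)) = am (G e n) v :=
        fun e n => am_single (hP.hor e n) hv a
      unfold cXp cYp
      rw [Xf_single (hP.hor 0 n), Xf_single (hP.hor 1 n)]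
      simp only [e, e']
    · rfl

end Pool.Agent.N300.NSP
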